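import Mathlib
import Pool.Agent.X213.UltraFix

set_option autoImplicit false

open Filter Topology Set

namespace Pool.Agent.Results.MP_254ca6_gt.ComfortFrolik

universe w

/-- The `U`-limit of the sequence `f` exists in `X`. -/
def HasLim {X : Type w} [TopologicalSpace X] (U : Ultrafilter ℕ) (f : ℕ → X) : Prop :=
  ∃ x : X, Tendsto f (U : Filter ℕ) (𝓝 x)

/-- `X` is `U`-compact. -/
def UCompact (U : Ultrafilter ℕ) (X : Type w) [TopologicalSpace X] : Prop :=
  ∀ f : ℕ → X, HasLim U f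

/-- `X` is discretely `U`-compact. -/
def DiscUCompact (U : Ultrafilter ℕ) (X : Type w) [TopologicalSpace X] : Prop :=
  ∀ f : ℕ → X, Function.Injective f → DiscreteTopology (range f) → HasLim U f

/-- The Comfort preorder. -/
def LeC (U V : Ultrafilter ℕ) : Prop :=
  ∀ (X : Type w) [TopologicalSpace X] [T35Space X], UCompact V X → UCompact U X

/-- The Comfort–Frolik preorder. -/
def LeCF (U V : Ultrafilter ℕ) : Prop :=
  ∀ (X : Type w) [TopologicalSpace X] [T35Space X], DiscUCompact V X → DiscUCompact U X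

/-- The Rudin–Frolik preorder. -/
def LeRF (U V : Ultrafilter ℕ) : Prop :=
  ∃ f : ℕ → Ultrafilter ℕ, Function.Injective f ∧ DiscreteTopology (range f) ∧
    Tendsto f (U : Filter ℕ) (𝓝 V)

/-- A sequence in disjoint basic clopen sets has a discrete range. -/
theorem discrete_of_disjoint (f : ℕ → Ultrafilter ℕ) (A : ℕ → Set ℕ) (hA : ∀ n, A n ∈ f n)
    (hd : ∀ n m, n ≠ m → A n ∉ f m) : DiscreteTopology (range f) := by
  rw [discreteTopology_iff_isOpen_singleton]
  rintro ⟨_, n, rfl⟩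
  rw [isOpen_induced_iff]
  refine ⟨{U | A n ∈ U}, ultrafilter_isOpen_basic _, ?_⟩
  ext ⟨_, m, rfl⟩
  simp only [Set.mem_preimage, Set.mem_ofPred_eq, Set.mem_singleton_iff]
  constructor
  · intro h
    by_contra hne
    exact hd n m (fun h' => hne (by rw [h'])) h
  · intro h
    have h1 : f m = f n := congrArg Subtype.val h
    show A n ∈ f m
    rw [h1]; exact hA n

theorem injective_of_disjoint (f : ℕ → Ultrafilter ℕ) (A : ℕ → Set ℕ) (hA : ∀ n, A n ∈ f n)
    (hd : ∀ n m, n ≠ m → A n ∉ f m) : Function.Injective f := by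
  intro n m h
  by_contra hne
  exact hd n m hne (h ▸ hA n)

/-- `≤_CF` is contained in `≤_C`. -/
theorem leC_of_leCF {U V : Ultrafilter ℕ} (h : LeCF.{w} U V) : LeC.{w} U V := by
  intro X _ _ hX f
  let Y := X × ULift.{w} (Ultrafilter ℕ)
  have : T35Space (ULift.{w} (Ultrafilter ℕ)) :=
    Homeomorph.ulift.isEmbedding.t35Space
  have hY : DiscUCompact V Y := by
    intro g _ _
    obtain ⟨x, hx⟩ := hX (fun n => (g n).1)
    have hc : CompactSpace (ULift.{w} (Ultrafilter ℕ)) := Homeomorph.ulift.symm.compactSpace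
    obtain ⟨y, -, hy⟩ := isCompact_univ.ultrafilter_le_nhds (V.map fun n => (g n).2) (by simp)
    refine ⟨(x, y), ?_⟩
    exact hx.prodMk_nhds hy
  have hdisc : Function.Injective (fun n : ℕ => ((f n, ⟨pure n⟩) : Y)) := by
    intro n m hnm
    have h1 : (pure n : Ultrafilter ℕ) = pure m := congrArg (fun y : Y => y.2.down) hnm
    have h2 : ({n} : Set ℕ) ∈ (pure m : Ultrafilter ℕ) := by
      rw [← h1]; exact rfl
    exact (Set.mem_singleton_iff.mp h2).symm
  have hdisc2 : DiscreteTopology (range (fun n : ℕ => ((f n, ⟨pure n⟩) : Y))) := by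
    rw [discreteTopology_iff_isOpen_singleton]
    rintro ⟨_, n, rfl⟩
    rw [isOpen_induced_iff]
    refine ⟨{y : Y | ({n} : Set ℕ) ∈ y.2.down}, ?_, ?_⟩
    · exact (ultrafilter_isOpen_basic ({n} : Set ℕ)).preimage
        (continuous_uliftDown.comp continuous_snd)
    · ext ⟨_, m, rfl⟩
      simp only [Set.mem_preimage, Set.mem_singleton_iff]
      constructor
      · intro hm
        have : m = n := hm
        rw [this]
      · intro hm
        have : m = n := hdisc (congrArg Subtype.val hm)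
        rw [this]; exact rfl
  obtain ⟨⟨x, y⟩, hxy⟩ := h Y hY _ hdisc hdisc2
  exact ⟨x, (continuous_fst.tendsto (x, y)).comp hxy⟩

/-- The least set of ultrafilters containing the principal ones and closed under `V`-limits of
injective discrete sequences. -/
inductive InX (V : Ultrafilter ℕ) : Ultrafilter ℕ → Prop
  | pure (n : ℕ) : InX V (Pure.pure n)
  | lim (f : ℕ → Ultrafilter ℕ) (hf : ∀ n, InX V (f n)) (hinj : Function.Injective f)
      (hd : DiscreteTopology (range f)) (x : Ultrafilter ℕ)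
      (hx : Tendsto f (V : Filter ℕ) (𝓝 x)) : InX V x

/-- A nonprincipal `U` with `U ≤_CF V` satisfies `V ≤_RF U`. -/
theorem leRF_of_leCF {U V : Ultrafilter ℕ} (hU : ∀ n : ℕ, U ≠ pure n) (h : LeCF.{w} U V) :
    LeRF V U := by
  let X : Type w := ULift.{w} {x : Ultrafilter ℕ // InX V x}
  let e : X → Ultrafilter ℕ := fun x => x.down.1
  have he : IsEmbedding e := IsEmbedding.subtypeVal.comp Homeomorph.ulift.isEmbedding
  have hT : T35Space X := he.t35Space
  have hX : DiscUCompact V X := by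
    intro g hg hgd
    -- the limit in `βω`
    obtain ⟨y, -, hy⟩ := isCompact_univ.ultrafilter_le_nhds (V.map fun n => e (g n)) (by simp)
    have hy' : Tendsto (fun n => e (g n)) (V : Filter ℕ) (𝓝 y) := hy
    have hd : DiscreteTopology (range fun n => e (g n)) := by
      have h1 : range (fun n => e (g n)) = e '' range g := by
        rw [← Set.range_comp]; rfl
      rw [h1]
      have h2 : (range g) ≃ₜ (e '' range g) := he.homeomorphImage (range g)
      exact h2.symm.isEmbedding.discreteTopology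
    have hin : InX V y := InX.lim (fun n => e (g n)) (fun n => (g n).down.2)
      (fun a b hab => hg (he.injective hab)) hd y hy'
    refine ⟨⟨⟨y, hin⟩⟩, ?_⟩
    rw [he.tendsto_nhds_iff]
    exact hy'
  have hpure : Function.Injective (fun n : ℕ => (⟨⟨pure n, InX.pure n⟩⟩ : X)) := by
    intro n m hnm
    have h1 : (pure n : Ultrafilter ℕ) = pure m := congrArg e hnm
    have h2 : ({n} : Set ℕ) ∈ (pure m : Ultrafilter ℕ) := by
      rw [← h1]; exact rfl
    exact (Set.mem_singleton_iff.mp h2).symm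
  have hpd : DiscreteTopology (range (fun n : ℕ => (⟨⟨pure n, InX.pure n⟩⟩ : X))) := by
    rw [discreteTopology_iff_isOpen_singleton]
    rintro ⟨_, n, rfl⟩
    rw [isOpen_induced_iff]
    refine ⟨{y : X | ({n} : Set ℕ) ∈ e y}, ?_, ?_⟩
    · exact (ultrafilter_isOpen_basic ({n} : Set ℕ)).preimage he.continuous
    · ext ⟨_, m, rfl⟩
      simp only [Set.mem_preimage, Set.mem_singleton_iff]
      constructor
      · intro hm
        have : m = n := hm
        rw [this]
      · intro hm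
        have : m = n := hpure (congrArg Subtype.val hm)
        rw [this]; exact rfl
  obtain ⟨x, hx⟩ := h X hX _ hpure hpd
  have h1 : Tendsto (fun n : ℕ => (pure n : Ultrafilter ℕ)) (U : Filter ℕ) (𝓝 (e x)) :=
    (he.continuous.tendsto x).comp hx
  have h2 : e x = U := tendsto_nhds_unique h1 (Ultrafilter.tendsto_pure_self U)
  have h3 : InX V U := by
    rw [← h2]; exact x.down.2
  cases h3 with
  | pure n => exact absurd rfl (hU n)
  | lim f hf hinj hd _ hx => exact ⟨f, hinj, hd, hx⟩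

theorem mem_of_lim {U V : Ultrafilter ℕ} {f : ℕ → Ultrafilter ℕ}
    (hf : Tendsto f (U : Filter ℕ) (𝓝 V)) {T : Set ℕ} (hT : T ∈ V) :
    ∀ᶠ n in (U : Filter ℕ), T ∈ f n :=
  (tendsto_nhds.mp hf) {W | T ∈ W} (ultrafilter_isOpen_basic T) hT

/-- An injective discrete sequence of ultrafilters has disjoint witnesses. -/
theorem exists_disjoint (f : ℕ → Ultrafilter ℕ) (hinj : Function.Injective f)
    (hd : DiscreteTopology (range f)) :
    ∃ A : ℕ → Set ℕ, (∀ n, A n ∈ f n) ∧ ∀ n m, n ≠ m → Disjoint (A n) (A m) := by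
  classical
  have h1 : ∀ n, ∃ B : Set ℕ, B ∈ f n ∧ ∀ m, m ≠ n → B ∉ f m := by
    intro n
    have h2 : IsOpen ({⟨f n, n, rfl⟩} : Set (range f)) := isOpen_discrete _
    obtain ⟨O, hO, hO'⟩ := isOpen_induced_iff.mp h2
    have h3 : f n ∈ O := by
      have : (⟨f n, n, rfl⟩ : range f) ∈ (Subtype.val ⁻¹' O : Set (range f)) := by
        rw [hO']; rfl
      exact this
    obtain ⟨_, ⟨B, rfl⟩, hB, hBO⟩ := ultrafilterBasis_is_basis.exists_subset_of_mem_open h3 hO
    refine ⟨B, hB, fun m hm hBm => ?_⟩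
    have h4 : (⟨f m, m, rfl⟩ : range f) ∈ ({⟨f n, n, rfl⟩} : Set (range f)) := by
      rw [← hO']; exact hBO hBm
    exact hm (hinj (congrArg Subtype.val (Set.mem_singleton_iff.mp h4)))
  choose B hB hB' using h1
  refine ⟨fun n => B n ∩ ⋂ m ∈ Finset.range n, (B m)ᶜ, ?_, ?_⟩
  · intro n
    refine inter_mem (hB n) ((biInter_finset_mem _).mpr ?_)
    intro m hm
    have h2 := hB' m n (Finset.mem_range.mp hm).ne'
    exact Ultrafilter.compl_mem_iff_notMem.mpr h2
  · have h2 : ∀ n m, n < m → Disjoint (B n ∩ ⋂ j ∈ Finset.range n, (B j)ᶜ)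
        (B m ∩ ⋂ j ∈ Finset.range m, (B j)ᶜ) := by
      intro n m hnm
      rw [Set.disjoint_left]
      rintro k ⟨hk, -⟩ ⟨-, hk'⟩
      simp only [Set.mem_iInter] at hk'
      exact hk' n (Finset.mem_range.mpr hnm) hk
    intro n m hnm
    rcases lt_or_gt_of_ne hnm with h | h
    · exact h2 n m h
    · exact (h2 m n h).symm

/-- The Rudin–Frolik preorder is contained in the Rudin–Keisler preorder. -/
theorem leRK_of_leRF {U V : Ultrafilter ℕ} (h : LeRF U V) : ∃ g : ℕ → ℕ, V.map g = U := by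
  classical
  obtain ⟨f, hinj, hd, hf⟩ := h
  obtain ⟨A, hA, hdis⟩ := exists_disjoint f hinj hd
  let g : ℕ → ℕ := fun k => if h : ∃ n, k ∈ A n then h.choose else 0
  have hg : ∀ n k, k ∈ A n → g k = n := by
    intro n k hk
    have h1 : ∃ n, k ∈ A n := ⟨n, hk⟩
    have h2 : g k = h1.choose := dif_pos h1
    rw [h2]
    by_contra hne
    exact Set.disjoint_left.mp (hdis _ _ hne) h1.choose_spec hk
  refine ⟨g, Ultrafilter.coe_le_coe.mp ?_⟩
  intro s hs
  rw [Ultrafilter.mem_coe, Ultrafilter.mem_map]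
  by_contra hno
  have h1 := mem_of_lim hf (Ultrafilter.compl_mem_iff_notMem.mpr hno)
  obtain ⟨n, hn1, hn2⟩ := (h1.and hs).exists
  obtain ⟨k, hk1, hk2⟩ := Ultrafilter.nonempty_of_mem (inter_mem hn1 (hA n))
  apply hk1
  show g k ∈ s
  rw [hg n k hk2]
  exact hn2

/-- The iterated (Fubini) square of `U`, transported to `ℕ` by the pairing function. -/
def sq (U : Ultrafilter ℕ) : Ultrafilter ℕ := U.bind fun n => U.map (Nat.pair n)

theorem mem_sq {U : Ultrafilter ℕ} {s : Set ℕ} :
    s ∈ sq U ↔ ∀ᶠ n in (U : Filter ℕ), ∀ᶠ m in (U : Filter ℕ), Nat.pair n m ∈ s := Iff.rfl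

theorem leRF_sq (U : Ultrafilter ℕ) : LeRF U (sq U) := by
  have hA : ∀ n, {k : ℕ | (Nat.unpair k).1 = n} ∈ U.map (Nat.pair n) := by
    intro n
    rw [Ultrafilter.mem_map]
    have h0 : Nat.pair n ⁻¹' {k : ℕ | (Nat.unpair k).1 = n} = Set.univ := by
      ext m; simp
    rw [h0]
    exact univ_mem
  have hdis : ∀ n m, n ≠ m → {k : ℕ | (Nat.unpair k).1 = n} ∉ U.map (Nat.pair m) := by
    intro n m hnm h
    rw [Ultrafilter.mem_map] at h
    have h1 : (Nat.pair m ⁻¹' {k : ℕ | (Nat.unpair k).1 = n}) = ∅ := by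
      ext j
      simp only [Set.mem_preimage, Set.mem_ofPred_eq, Nat.unpair_pair, Set.mem_empty_iff_false,
        iff_false]
      exact fun h => hnm h.symm
    rw [h1] at h
    exact Ultrafilter.empty_notMem h
  refine ⟨fun n => U.map (Nat.pair n), injective_of_disjoint _ _ hA hdis,
    discrete_of_disjoint _ _ hA hdis, ?_⟩
  rw [ultrafilterBasis_is_basis.nhds_hasBasis.tendsto_right_iff]
  rintro _ ⟨⟨s, rfl⟩, hs⟩
  exact hs

theorem leC_sq (U : Ultrafilter ℕ) : LeC.{w} U (sq U) := by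
  intro X _ _ hX f
  obtain ⟨x, hx⟩ := hX fun k => f (Nat.unpair k).1
  refine ⟨x, ?_⟩
  rw [tendsto_nhds] at hx ⊢
  intro s hs hxs
  have h1 := mem_sq.mp (hx s hs hxs)
  filter_upwards [h1] with n hn
  obtain ⟨m, hm⟩ := hn.exists
  simpa using hm

/-- For nonprincipal `U`, the square of `U` is not Rudin–Frolik below `U`. -/
theorem not_leRF_sq {U : Ultrafilter ℕ} (hU : ∀ n : ℕ, U ≠ pure n) : ¬ LeRF (sq U) U := by
  intro h
  obtain ⟨g, hg⟩ := leRK_of_leRF h
  -- both coordinates of `g` fix `U`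
  have h1 : U.map (fun k => (Nat.unpair (g k)).1) = U := by
    have : U.map (fun k => (Nat.unpair (g k)).1) = (U.map g).map (fun k => (Nat.unpair k).1) := rfl
    rw [this, hg]
    refine (Ultrafilter.coe_le_coe.mp ?_)
    intro s hs
    rw [Ultrafilter.mem_coe, Ultrafilter.mem_map, mem_sq]
    filter_upwards [hs] with n hn
    exact Eventually.of_forall fun m => by simpa using hn
  have h2 : U.map (fun k => (Nat.unpair (g k)).2) = U := by
    have : U.map (fun k => (Nat.unpair (g k)).2) = (U.map g).map (fun k => (Nat.unpair k).2) := rfl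
    rw [this, hg]
    refine (Ultrafilter.coe_le_coe.mp ?_)
    intro s hs
    rw [Ultrafilter.mem_coe, Ultrafilter.mem_map, mem_sq]
    refine Eventually.of_forall fun n => ?_
    filter_upwards [hs] with m hm
    simpa using hm
  have h3 := Pool.Agent.X213.eventually_fix U _ h1
  have h4 := Pool.Agent.X213.eventually_fix U _ h2
  have h5 : {k : ℕ | (Nat.unpair k).1 = (Nat.unpair k).2} ∈ sq U := by
    rw [← hg, Ultrafilter.mem_map]
    filter_upwards [h3, h4] with k hk1 hk2
    show (Nat.unpair (g k)).1 = (Nat.unpair (g k)).2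
    rw [hk1, hk2]
  rw [mem_sq] at h5
  obtain ⟨n, hn⟩ := h5.exists
  have h6 : {n} ∈ U := by
    filter_upwards [hn] with m hm
    simp only [Nat.unpair_pair] at hm
    exact hm.symm
  obtain ⟨m, hm⟩ := Ultrafilter.eq_pure_of_finite_mem (Set.finite_singleton n) h6
  exact hU m hm.2

/-- The answer to Q1 for the preorders as defined in the problem: `≤_CF` is contained in `≤_C`,
and for nonprincipal `U` the relation `U ≤_CF V` forces `V ≤_RF U`; so for every nonprincipal `U`
the ultrafilter `V = U ⊗ U` satisfies `U ≤_RF V` and `U ≤_C V` but not `U ≤_CF V`. -/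
theorem result :
    (∀ U V : Ultrafilter ℕ, LeCF.{w} U V → LeC.{w} U V) ∧
    (∀ U V : Ultrafilter ℕ, (∀ n : ℕ, U ≠ pure n) → LeCF.{w} U V → LeRF V U) ∧
    (∀ U : Ultrafilter ℕ, (∀ n : ℕ, U ≠ pure n) →
      ∃ V : Ultrafilter ℕ, LeRF U V ∧ LeC.{w} U V ∧ ¬ LeCF.{w} U V) ∧
    ¬ (∀ U V : Ultrafilter ℕ, LeC.{w} U V → LeCF.{w} U V) ∧
    ¬ (∀ U V : Ultrafilter ℕ, LeRF U V → LeCF.{w} U V) ∧
    (LeCF.{w} ≠ LeC.{w}) ∧ (LeCF.{w} ≠ LeRF) := by
  have h3 : ∀ U : Ultrafilter ℕ, (∀ n : ℕ, U ≠ pure n) →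
      ∃ V : Ultrafilter ℕ, LeRF U V ∧ LeC.{w} U V ∧ ¬ LeCF.{w} U V := by
    intro U hU
    exact ⟨sq U, leRF_sq U, leC_sq U, fun h => not_leRF_sq hU (leRF_of_leCF hU h)⟩
  have hnp : ∀ n : ℕ, (hyperfilter ℕ : Ultrafilter ℕ) ≠ pure n := by
    intro n h
    have h1 : ({n} : Set ℕ) ∈ (hyperfilter ℕ : Ultrafilter ℕ) := by
      rw [h]; exact rfl
    exact (Set.finite_singleton n).notMem_hyperfilter h1
  obtain ⟨V, hV1, hV2, hV3⟩ := h3 (hyperfilter ℕ) hnp
  refine ⟨fun U V => leC_of_leCF, fun U V => leRF_of_leCF, h3, fun h => hV3 (h _ _ hV2),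
    fun h => hV3 (h _ _ hV1), fun h => hV3 ?_, fun h => hV3 ?_⟩
  · rw [h]; exact hV2
  · rw [h]; exact hV1

end Pool.Agent.Results.MP_254ca6_gt.ComfortFrolik
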